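import Mathlib
import Pool.Agent.H561R3.Om.Defs
import Pool.Agent.W305.RH.Main

/-!
# Halting probabilities restricted to co-c.e. sets

If `U` is a prefix-free machine that is universal by adjunction and `X` is co-c.e. with
`Ω_U[X] > 0`, then `Ω_U[X]` is Martin-Löf random.

The definitions (`PFMachine`, `UniversalByAdjunction`, `Omega`, `IsMLTest`, `MLRandomReal`) are in
`Pool.Agent.H561R3.Om.Defs`.
-/

namespace Pool.Agent.Results.MP_f476d2_lc.CoCeRandom

open Pool.Agent.H561R3.Om

/-- For every prefix-free machine `U` that is universal by adjunction and every co-c.e. set `X` of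
strings with `Ω_U[X] > 0` the real number `Ω_U[X]` is Martin-Löf random. -/
theorem result (U : List Bool →. List Bool) (hU : UniversalByAdjunction U)
    (X : Set (List Bool)) (hX : REPred fun x => x ∉ X) (hpos : 0 < Omega U X) :
    MLRandomReal (Omega U X) :=
  Pool.Agent.W305.RH.main hU hX hpos

end Pool.Agent.Results.MP_f476d2_lc.CoCeRandom
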